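import Pool.Agent.H102R3.FR.Stmts

/-! Task CNTB of the project H102-FR (helper138). -/

namespace Pool.Agent.H102R3.FR

open Finset

section

variable {V : Type} [Fintype V] [DecidableEq V] (G : SimpleGraph V) [DecidableRel G.Adj]

/-- the boundary edges as unordered pairs -/
def bdE (B : Finset V) : Finset (Sym2 V) :=
  ((Finset.univ : Finset (V × V)).filter
    (fun e => e.1 ∈ B ∧ e.2 ∉ B ∧ G.Adj e.1 e.2)).image (fun e => s(e.1, e.2))

theorem card_bdE (B : Finset V) : (bdE G B).card = bd G B := by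
  unfold bdE bd
  apply Finset.card_image_of_injOn
  rintro ⟨a, b⟩ h1 ⟨c, d⟩ h2 h
  simp only [Finset.coe_filter, Finset.mem_univ, true_and, Set.mem_ofPred_eq] at h1 h2
  simp only [Sym2.eq_iff] at h
  rcases h with ⟨rfl, rfl⟩ | ⟨rfl, rfl⟩
  · rfl
  · exact absurd h1.1 h2.2.1

theorem mem_bdE (B : Finset V) (a b : V) :
    s(a, b) ∈ bdE G B ↔ G.Adj a b ∧ ¬ (a ∈ B ↔ b ∈ B) := by
  unfold bdE
  simp only [Finset.mem_image, Finset.mem_filter, Finset.mem_univ, true_and, Prod.exists,
    Sym2.eq_iff]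
  constructor
  · rintro ⟨c, d, ⟨h1, h2, h3⟩, ⟨rfl, rfl⟩ | ⟨rfl, rfl⟩⟩
    · exact ⟨h3, by tauto⟩
    · exact ⟨h3.symm, by tauto⟩
  · rintro ⟨h1, h2⟩
    by_cases ha : a ∈ B
    · exact ⟨a, b, ⟨ha, by tauto, h1⟩, Or.inl ⟨rfl, rfl⟩⟩
    · exact ⟨b, a, ⟨by tauto, ha, h1.symm⟩, Or.inr ⟨rfl, rfl⟩⟩

theorem bdE_inj (hG : G.Connected) (v0 : V) (B B' : Finset V) (h : bdE G B = bdE G B')
    (h0 : v0 ∈ B ↔ v0 ∈ B') : B = B' := by
  have key : ∀ v : V, (v ∈ B ↔ v ∈ B') := by
    intro v
    obtain ⟨w⟩ := hG.preconnected v0 v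
    induction w with
    | nil => exact h0
    | @cons a b c hab w ih =>
      apply ih
      have h1 : s(a, b) ∈ bdE G B ↔ s(a, b) ∈ bdE G B' := by rw [h]
      rw [mem_bdE, mem_bdE] at h1
      tauto
  ext v
  exact key v

end

theorem taskCntB : TaskCntB := by
  intro V _ _ G _ d hG hd hdeg
  obtain ⟨v0⟩ := hG.nonempty
  set n := Fintype.card V with hn
  have hnpos : 0 < n := Fintype.card_pos_iff.mpr ⟨v0⟩
  set x : ℝ := (((d * n : ℕ) : ℝ)⁻¹) with hx
  have hdn : (0 : ℝ) < ((d * n : ℕ) : ℝ) := by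
    have : 0 < d * n := Nat.mul_pos (by omega) hnpos
    exact_mod_cast this
  have hx0 : 0 < x := inv_pos.mpr hdn
  let f : Finset V → Finset (Sym2 V) × Bool := fun B => (bdE G B, decide (v0 ∈ B))
  have hf : Function.Injective f := by
    intro B B' h
    simp only [f, Prod.mk.injEq, decide_eq_decide] at h
    exact bdE_inj G hG v0 B B' h.1 h.2
  have h1 : ∑ B : Finset V, x ^ (bd G B) = ∑ p ∈ Finset.univ.image f, x ^ (p.1.card) := by
    rw [Finset.sum_image (fun a _ b _ h => hf h)]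
    apply Finset.sum_congr rfl
    intro B _
    simp only [f, card_bdE]
  have h2 : ∑ p ∈ Finset.univ.image f, x ^ (p.1.card) ≤
      ∑ p ∈ G.edgeFinset.powerset ×ˢ (Finset.univ : Finset Bool), x ^ (p.1.card) := by
    apply Finset.sum_le_sum_of_subset_of_nonneg
    · intro p hp
      simp only [Finset.mem_image, Finset.mem_univ, true_and] at hp
      obtain ⟨B, rfl⟩ := hp
      simp only [f, Finset.mem_product, Finset.mem_powerset, Finset.mem_univ, and_true]
      intro e he
      induction e using Sym2.ind with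
      | _ a b =>
        rw [mem_bdE] at he
        rw [SimpleGraph.mem_edgeFinset, SimpleGraph.mem_edgeSet]
        exact he.1
    · intro p _ _
      positivity
  have h3 : ∑ p ∈ G.edgeFinset.powerset ×ˢ (Finset.univ : Finset Bool), x ^ (p.1.card) =
      2 * (1 + x) ^ (G.edgeFinset.card) := by
    rw [Finset.sum_product]
    simp only [Finset.sum_const, Finset.card_univ, Fintype.card_bool, nsmul_eq_mul]
    rw [← Finset.mul_sum]
    have := Finset.sum_pow_mul_eq_add_pow x 1 G.edgeFinset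
    simp only [one_pow, mul_one] at this
    rw [this, add_comm x 1]
    norm_num
  have h4 : (G.edgeFinset.card : ℝ) ≤ ((d * n : ℕ) : ℝ) / 2 := by
    have h5 : ∑ v, G.degree v = 2 * G.edgeFinset.card := G.sum_degrees_eq_twice_card_edges
    have h6 : ∑ v, G.degree v ≤ d * n := by
      calc ∑ v, G.degree v ≤ ∑ _v : V, d := Finset.sum_le_sum (fun v _ => hdeg v)
        _ = d * n := by simp [hn, mul_comm]
    have h7 : 2 * G.edgeFinset.card ≤ d * n := h5 ▸ h6
    have h8 : (2 : ℝ) * (G.edgeFinset.card : ℝ) ≤ ((d * n : ℕ) : ℝ) := by exact_mod_cast h7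
    linarith
  have h5 : (1 + x) ^ (G.edgeFinset.card) ≤ 2 := by
    calc (1 + x) ^ (G.edgeFinset.card) ≤ (Real.exp x) ^ (G.edgeFinset.card) := by
          apply pow_le_pow_left₀ (by linarith)
          linarith [Real.add_one_le_exp x]
      _ = Real.exp (G.edgeFinset.card * x) := by rw [← Real.exp_nat_mul]
      _ ≤ Real.exp (1 / 2) := by
          apply Real.exp_le_exp.mpr
          calc (G.edgeFinset.card : ℝ) * x ≤ (((d * n : ℕ) : ℝ) / 2) * x :=
                mul_le_mul_of_nonneg_right h4 hx0.le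
            _ = 1 / 2 := by rw [hx]; field_simp
      _ ≤ 2 := by
          have h9 : Real.exp (1 / 2) ^ 2 ≤ 2 ^ 2 := by
            rw [← Real.exp_nat_mul]
            norm_num
            linarith [Real.exp_one_lt_d9]
          exact le_of_sq_le_sq h9 (by norm_num) |>.trans le_rfl
  rw [h1]
  calc _ ≤ _ := h2
    _ = _ := h3
    _ ≤ 2 * 2 := by linarith
    _ = 4 := by norm_num

end Pool.Agent.H102R3.FR
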